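import Mathlib

set_option autoImplicit false

namespace Pool.Agent.Results.MP_ffd2b5_nt.No

/-- Complete quotients of the regular continued fraction of `θ`. -/
noncomputable def cq (θ : ℝ) : ℕ → ℝ
  | 0 => θ
  | n + 1 => 1 / (cq θ n - ⌊cq θ n⌋)

/-- Minimal period of the partial quotients `a_n = ⌊cq √p n⌋`, `n ≥ 1`. -/
noncomputable def T (p : ℕ) : ℕ :=
  sInf {t : ℕ | 1 ≤ t ∧ ∀ n, 1 ≤ n → ⌊cq (√p) (n + t)⌋ = ⌊cq (√p) n⌋}

theorem result : ∃ m : ℕ, 5 ≤ m ∧ √m * Real.log m ≤ T (Nat.nth Nat.Prime (m - 1)) := by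
  have h13 : Nat.nth Nat.Prime 5 = 13 := by
    have := Nat.nth_count (p := Nat.Prime) (n := 13) (by norm_num)
    rwa [show Nat.count Nat.Prime 13 = 5 by decide] at this
  refine ⟨6, by norm_num, ?_⟩
  rw [show 6 - 1 = 5 from rfl, h13]
  obtain ⟨s, hs⟩ : ∃ s : ℝ, s = √((13 : ℕ) : ℝ) := ⟨_, rfl⟩
  have s2 : s * s = 13 := by rw [hs, Real.mul_self_sqrt (by positivity)]; norm_num
  have s0 : 0 ≤ s := hs ▸ Real.sqrt_nonneg _
  have l : 3.6 < s := by nlinarith
  have u : s < 3.7 := by nlinarith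
  have st : ∀ (n : ℕ) (x y : ℝ) (k : ℤ), cq s n = x → k ≤ x → x < k + 1 → (x - k) * y = 1 →
      ⌊cq s n⌋ = k ∧ cq s (n + 1) = y := fun n x y k h a b c => by
    have e : ⌊cq s n⌋ = k := by rw [h, Int.floor_eq_iff]; exact ⟨a, b⟩
    exact ⟨e, by rw [cq, e, h]; exact (eq_one_div_of_mul_eq_one_right c).symm⟩
  obtain ⟨-, c1⟩ := st 0 s ((s + 3) / 4) 3 rfl (by push_cast; linarith) (by push_cast; linarith)
    (by push_cast; linarith)
  obtain ⟨a1, c2⟩ := st 1 _ ((s + 1) / 3) 1 c1 (by push_cast; linarith) (by push_cast; linarith)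
    (by push_cast; linarith)
  obtain ⟨a2, c3⟩ := st 2 _ ((s + 2) / 3) 1 c2 (by push_cast; linarith) (by push_cast; linarith)
    (by push_cast; linarith)
  obtain ⟨a3, c4⟩ := st 3 _ ((s + 1) / 4) 1 c3 (by push_cast; linarith) (by push_cast; linarith)
    (by push_cast; linarith)
  obtain ⟨a4, c5⟩ := st 4 _ (s + 3) 1 c4 (by push_cast; linarith) (by push_cast; linarith)
    (by push_cast; linarith)
  obtain ⟨a5, c6⟩ := st 5 _ ((s + 3) / 4) 6 c5 (by push_cast; linarith) (by push_cast; linarith)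
    (by push_cast; linarith)
  have per : ∀ n, 1 ≤ n → cq s (n + 5) = cq s n := fun n hn => by
    induction n, hn using Nat.le_induction with
    | base => exact c6.trans c1.symm
    | succ n hn ih =>
      have e : ∀ k, cq s (k + 1) = 1 / (cq s k - ⌊cq s k⌋) := fun k => rfl
      rw [show n + 1 + 5 = n + 5 + 1 by ring, e (n + 5), e n, ih]
  have h5 : 5 ≤ T 13 := by
    rw [T, ← hs]
    refine le_csInf ⟨5, by norm_num, fun n hn => by rw [per n hn]⟩ fun t ⟨t1, ht⟩ => ?_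
    by_contra hc
    have := ht (5 - t) (by omega)
    rw [show 5 - t + t = 5 by omega, a5] at this
    have : t < 5 := by omega
    interval_cases t <;> simp_all
  have h6 : (5 : ℝ) ≤ T 13 := by exact_mod_cast h5
  have q : √((6 : ℕ) : ℝ) ≤ 2.5 := Real.sqrt_le_iff.2 ⟨by norm_num, by norm_num⟩
  have r : Real.log ((6 : ℕ) : ℝ) ≤ 2 := by
    rw [Real.log_le_iff_le_exp (by norm_num)]
    have := Real.exp_one_gt_d9
    rw [show (2 : ℝ) = 1 + 1 by norm_num, Real.exp_add]
    push_cast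
    nlinarith
  have := mul_le_mul q r (Real.log_natCast_nonneg 6) (by norm_num)
  exact this.trans (le_trans (by norm_num) h6)

end Pool.Agent.Results.MP_ffd2b5_nt.No
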